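import Pool.Agent.R246.SK.Defs

set_option autoImplicit false

/-!
# MP_3f9991_gt: Weyl's inequality (piece SK-WEYL)
-/

open scoped ContDiff ComplexConjugate
open Filter MeasureTheory

namespace Pool.Agent.R246.SK

noncomputable section

namespace Weyl

lemma cont_ip (a : ℝ → ℝ) (ha : PP a) (f g : ℝ → ℂ) (hf : SP f) (hg : SP g) :
    Continuous (fun t => f t * conj (g t) / (a t : ℂ)) := by
  have h1 : Continuous (fun t => (a t : ℂ)) := Complex.continuous_ofReal.comp ha.1.continuous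
  refine Continuous.div (hf.1.continuous.mul (Complex.continuous_conj.comp hg.1.continuous)) h1 ?_
  intro t
  exact_mod_cast (ha.2.2 t).ne'

lemma SP_sum {ι : Type} (s : Finset ι) (x : ι → ℂ) (g : ι → ℝ → ℂ) (hg : ∀ i, SP (g i)) :
    SP (fun t => ∑ i ∈ s, x i * g i t) := by
  refine ⟨?_, fun t => ?_⟩
  · exact ContDiff.sum fun i _ => contDiff_const.mul (hg i).1
  · simp only [(hg _).2 t]

lemma ip_left {ι : Type} (a : ℝ → ℝ) (ha : PP a) (s : Finset ι) (x : ι → ℂ) (g : ι → ℝ → ℂ)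
    (hg : ∀ i, SP (g i)) (h : ℝ → ℂ) (hh : SP h) :
    ip a (fun t => ∑ i ∈ s, x i * g i t) h = ∑ i ∈ s, x i * ip a (g i) h := by
  unfold ip
  have e : ∀ t, (∑ i ∈ s, x i * g i t) * conj (h t) / (a t : ℂ) =
      ∑ i ∈ s, x i * (g i t * conj (h t) / (a t : ℂ)) := by
    intro t
    rw [Finset.sum_mul, Finset.sum_div]
    refine Finset.sum_congr rfl fun i _ => ?_
    ring
  simp only [e]
  rw [intervalIntegral.integral_finsetSum]
  · refine Finset.sum_congr rfl fun i _ => ?_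
    rw [intervalIntegral.integral_const_mul]
  · intro i _
    exact (continuous_const.mul (cont_ip a ha (g i) h (hg i) hh)).intervalIntegrable _ _

lemma ip_right {ι : Type} (a : ℝ → ℝ) (ha : PP a) (s : Finset ι) (x : ι → ℂ) (g : ι → ℝ → ℂ)
    (hg : ∀ i, SP (g i)) (h : ℝ → ℂ) (hh : SP h) :
    ip a h (fun t => ∑ i ∈ s, x i * g i t) = ∑ i ∈ s, conj (x i) * ip a h (g i) := by
  unfold ip
  have e : ∀ t, h t * conj (∑ i ∈ s, x i * g i t) / (a t : ℂ) =
      ∑ i ∈ s, conj (x i) * (h t * conj (g i t) / (a t : ℂ)) := by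
    intro t
    rw [map_sum, Finset.mul_sum, Finset.sum_div]
    refine Finset.sum_congr rfl fun i _ => ?_
    rw [map_mul]
    ring
  simp only [e]
  rw [intervalIntegral.integral_finsetSum]
  · refine Finset.sum_congr rfl fun i _ => ?_
    rw [intervalIntegral.integral_const_mul]
  · intro i _
    exact (continuous_const.mul (cont_ip a ha h (g i) hh (hg i))).intervalIntegrable _ _

lemma one_side (a : ℝ → ℝ) (u v : ℕ → ℝ → ℂ) (α β : ℕ → ℝ) (qa qb : (ℝ → ℂ) → ℝ) (M : ℝ)
    (ha : PP a) (hu : ∀ j, SP (u j)) (hv : ∀ j, SP (v j)) (hon : ON a v) (hcp : CP a u)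
    (hα : Monotone α) (hβ : Monotone β)
    (hqa : ∀ f, SP f → HasSum (fun j => α j * ‖ip a f (u j)‖ ^ 2) (qa f))
    (hqb : ∀ f, SP f → HasSum (fun j => β j * ‖ip a f (v j)‖ ^ 2) (qb f))
    (hM : ∀ f, SP f → |qa f - qb f| ≤ M * (ip a f f).re) (k : ℕ) : α k ≤ β k + M := by
  -- the linear map
  obtain ⟨x, hx0, hx⟩ : ∃ x : Fin (k + 1) → ℂ, x ≠ 0 ∧
      ∀ j : Fin k, ∑ n, x n * ip a (v n) (u j) = 0 := by
    let A : Matrix (Fin k) (Fin (k + 1)) ℂ := fun j n => ip a (v n) (u j)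
    have h1 : LinearMap.ker (Matrix.mulVecLin A) ≠ ⊥ := by
      apply LinearMap.ker_ne_bot_of_finrank_lt
      simp
    obtain ⟨x, hx, hx0⟩ := Submodule.exists_mem_ne_zero_of_ne_bot h1
    refine ⟨x, hx0, fun j => ?_⟩
    have h2 : A.mulVec x = 0 := by simpa using hx
    have h3 := congrFun h2 j
    simp only [Matrix.mulVec, dotProduct, Pi.zero_apply] at h3
    rw [← h3]
    exact Finset.sum_congr rfl fun n _ => mul_comm _ _
  obtain ⟨f, hf⟩ : ∃ f : ℝ → ℂ, f = fun t => ∑ n : Fin (k + 1), x n * v n t := ⟨_, rfl⟩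
  have hfS : SP f := by
    rw [hf]; exact SP_sum Finset.univ x (fun n : Fin (k + 1) => v n) (fun n => hv n)
  have hleft : ∀ h, SP h → ip a f h = ∑ n : Fin (k + 1), x n * ip a (v n) h := by
    intro h hh
    rw [hf]
    exact ip_left a ha Finset.univ x (fun n : Fin (k + 1) => v n) (fun n => hv n) h hh
  have hfu : ∀ j, j < k → ip a f (u j) = 0 := by
    intro j hj
    rw [hleft _ (hu j)]
    exact hx ⟨j, hj⟩
  have hfv : ∀ m : Fin (k + 1), ip a f (v m) = x m := by
    intro m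
    rw [hleft _ (hv m)]
    simp only [hon _ _]
    rw [Finset.sum_eq_single m]
    · simp
    · intro n _ hn
      rw [if_neg (fun e => hn (Fin.ext e)), mul_zero]
    · intro h; exact absurd (Finset.mem_univ m) h
  have hfv0 : ∀ m, ¬ m < k + 1 → ip a f (v m) = 0 := by
    intro m hm
    rw [hleft _ (hv m)]
    simp only [hon _ _]
    refine Finset.sum_eq_zero fun n _ => ?_
    rw [if_neg (fun e : (n : ℕ) = m => hm (e ▸ n.2)), mul_zero]
  have hff : (ip a f f).re = ∑ n : Fin (k + 1), ‖x n‖ ^ 2 := by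
    have e1 : ip a f f = ∑ n : Fin (k + 1), conj (x n) * x n := by
      have e2 : ip a f f = ∑ n : Fin (k + 1), conj (x n) * ip a f (v n) := by
        have e3 := ip_right a ha Finset.univ x (fun n : Fin (k + 1) => v n) (fun n => hv n) f hfS
        rw [← hf] at e3
        exact e3
      rw [e2]
      exact Finset.sum_congr rfl fun n _ => by rw [hfv n]
    rw [e1, Complex.re_sum]
    refine Finset.sum_congr rfl fun n _ => ?_
    rw [mul_comm, Complex.mul_conj, Complex.ofReal_re, Complex.normSq_eq_norm_sq]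
  have hpos : 0 < ∑ n : Fin (k + 1), ‖x n‖ ^ 2 := by
    obtain ⟨n, hn⟩ := Function.ne_iff.1 hx0
    apply Finset.sum_pos' (fun n _ => sq_nonneg _)
    refine ⟨n, Finset.mem_univ n, ?_⟩
    have : 0 < ‖x n‖ := norm_pos_iff.2 hn
    positivity
  -- the form `qb`
  have hqb' : qb f ≤ β k * ∑ n : Fin (k + 1), ‖x n‖ ^ 2 := by
    have h1 : HasSum (fun j => β j * ‖ip a f (v j)‖ ^ 2)
        (∑ j ∈ Finset.range (k + 1), β j * ‖ip a f (v j)‖ ^ 2) := by
      apply hasSum_sum_of_ne_finset_zero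
      intro j hj
      rw [hfv0 j (by simpa using hj)]
      simp
    rw [(hqb f hfS).unique h1, Finset.sum_range, Finset.mul_sum]
    apply Finset.sum_le_sum
    intro n _
    rw [hfv n]
    apply mul_le_mul_of_nonneg_right _ (sq_nonneg _)
    exact hβ (by omega)
  -- the form `qa`
  have hqa' : α k * ∑ n : Fin (k + 1), ‖x n‖ ^ 2 ≤ qa f := by
    have h1 := (hcp f hfS).mul_left (α k)
    rw [hff] at h1
    refine hasSum_le ?_ h1 (hqa f hfS)
    intro j
    rcases lt_or_ge j k with h | h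
    · rw [hfu j h]; simp
    · exact mul_le_mul_of_nonneg_right (hα h) (sq_nonneg _)
  have h1 := hM f hfS
  rw [hff] at h1
  have h2 := (abs_le.1 h1).2
  have h3 : α k * ∑ n : Fin (k + 1), ‖x n‖ ^ 2 ≤ (β k + M) * ∑ n : Fin (k + 1), ‖x n‖ ^ 2 := by
    linarith
  exact le_of_mul_le_mul_right h3 hpos

end Weyl

theorem s_weyl : S_WEYL := by
  intro a u v α β qa qb M ha hu hv honu honv hcu hcv hα hβ hqa hqb hM k
  have h1 := Weyl.one_side a u v α β qa qb M ha hu hv honv hcu hα hβ hqa hqb hM k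
  have h2 := Weyl.one_side a v u β α qb qa M ha hv hu honu hcv hβ hα hqb hqa
    (fun f hf => by rw [abs_sub_comm]; exact hM f hf) k
  rw [abs_le]
  constructor <;> linarith

end

end Pool.Agent.R246.SK
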